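import Pool.Agent.Q74.SF.Def

/-! # Project SF, jobs Comp and CMono: marginals and monotonicity of coalescing walkers -/

set_option autoImplicit false

namespace Pool.Agent.Q177.SF

open Finset
open Pool.Agent.Q74.SF

theorem sum_inter (V W : Finset ℤ) (h : Disjoint V W) (f : Finset ℤ → ℝ) :
    (∑ B ∈ (V ∪ W).powerset, f (B ∩ V)) / 2 ^ (V ∪ W).card =
      (∑ B ∈ V.powerset, f B) / 2 ^ V.card := by
  induction W using Finset.induction_on with
  | empty =>
    rw [union_empty]
    congr 1
    refine sum_congr rfl fun B hB => ?_
    rw [inter_eq_left.2 (mem_powerset.1 hB)]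
  | insert x W hx ih =>
    rw [disjoint_insert_right] at h
    have hx' : x ∉ V ∪ W := by
      rw [mem_union]
      rintro (h1 | h1)
      · exact h.1 h1
      · exact hx h1
    have e1 : V ∪ insert x W = insert x (V ∪ W) := by rw [union_insert]
    have e2 : ∀ B ∈ (V ∪ W).powerset, f (insert x B ∩ V) = f (B ∩ V) := by
      intro B _
      rw [insert_inter_of_notMem h.1]
    rw [e1, sum_powerset_insert hx', sum_congr rfl e2, card_insert_of_notMem hx', pow_succ,
      ← ih h.2, ← two_mul, mul_comm ((2 : ℝ) ^ (V ∪ W).card) 2,
      mul_div_mul_left _ _ (two_ne_zero)]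

/-- some of the walkers are again coalescing walkers -/
theorem comp : S_Comp := by
  intro k k' e F t
  induction t with
  | zero => intro a; rfl
  | succ t ih =>
    intro a
    rw [CG_succ, CG_succ]
    have hV : univ.image (a ∘ e) ⊆ univ.image a := by
      intro x hx
      rw [mem_image] at hx
      obtain ⟨i, _, rfl⟩ := hx
      exact mem_image_of_mem _ (mem_univ _)
    have h1 := sum_inter (univ.image (a ∘ e)) (univ.image a \ univ.image (a ∘ e))
      disjoint_sdiff (fun B => CG F t (fun i => (a ∘ e) i + if (a ∘ e) i ∈ B then 1 else 0))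
    rw [union_sdiff_of_subset hV] at h1
    rw [← h1]
    congr 1
    refine sum_congr rfl fun B _ => ?_
    rw [ih]
    congr 1
    funext i
    have h2 : a (e i) ∈ univ.image (a ∘ e) := mem_image_of_mem (a ∘ e) (mem_univ i)
    simp only [Function.comp_apply, mem_inter, h2, and_true]

/-- coalescing walkers in weakly increasing order keep this order -/
theorem cmono : S_CMono := by
  intro k F G hFG t
  induction t with
  | zero => intro a ha; exact hFG a ha
  | succ t ih =>
    intro a ha
    rw [CG_succ, CG_succ]
    congr 1
    refine sum_congr rfl fun B _ => ih _ ?_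
    intro i j hij
    have h1 := ha hij
    rcases h1.eq_or_lt with h2 | h2
    · simp only [h2, le_refl]
    · have h3 : a i + 1 ≤ a j := h2
      have h4 : (if a i ∈ B then (1 : ℤ) else 0) ≤ 1 := by split_ifs <;> norm_num
      have h5 : (0 : ℤ) ≤ if a j ∈ B then (1 : ℤ) else 0 := by split_ifs <;> norm_num
      show a i + _ ≤ a j + _
      linarith

end Pool.Agent.Q177.SF
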